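import Mathlib

set_option autoImplicit false

namespace Pool.Agent.Results.MP_88cfb8_co.Cash

/-- `W n` says that Player I wins from `n`; `f`, `g` are the thresholds of Players I and II -/
structure Rec (L M : ℕ) (W : ℕ → Prop) (f g : ℕ → ℕ) : Prop where
  win : ∀ n, W n ↔ ∃ a, L ≤ a ∧ a ≤ M ∧ a ≤ n ∧ ¬ W (n - a)
  base : ∀ n < L, f n = 0 ∧ g n = 0
  two : ∀ n, L ≤ n → IsGreatest {x | ∃ a, L ≤ a ∧ a ≤ M ∧ a ≤ n ∧ x = f (n - a)} (g n)
  oneI : ∀ n, L ≤ n → W n →
    IsLeast {x | ∃ a, L ≤ a ∧ a ≤ M ∧ a ≤ n ∧ ¬ W (n - a) ∧ x = g (n - a) + a} (f n)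
  oneII : ∀ n, L ≤ n → ¬ W n →
    IsLeast {x | ∃ a, L ≤ a ∧ a ≤ M ∧ a ≤ n ∧ f (n - a) = g n ∧ x = g (n - a) + a} (f n)

theorem uniq {L M : ℕ} (hL : 1 ≤ L) {W W' : ℕ → Prop} {f g f' g' : ℕ → ℕ}
    (h : Rec L M W f g) (h' : Rec L M W' f' g') : W = W' ∧ f = f' ∧ g = g' := by
  have key : ∀ n, (W n ↔ W' n) ∧ f n = f' n ∧ g n = g' n := by
    intro n
    induction n using Nat.strong_induction_on with
    | _ n ih =>
      have ih' : ∀ a, L ≤ a → a ≤ n → (W (n - a) ↔ W' (n - a)) ∧ f (n - a) = f' (n - a) ∧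
          g (n - a) = g' (n - a) := fun a h1 h2 => ih _ (by omega)
      have e1 : W n ↔ W' n := by
        rw [h.win, h'.win]
        grind
      by_cases hn : n < L
      · have := h.base n hn
        have := h'.base n hn
        grind
      have hn' : L ≤ n := by omega
      have e2 : g n = g' n := by
        refine (h.two n hn').unique ((congrArg (IsGreatest · (g' n)) (Set.ext fun x =>
          exists_congr fun a => ?_)).mp (h'.two n hn'))
        have := ih' a
        clear ih ih'
        grind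
      refine ⟨e1, ?_, e2⟩
      by_cases hw : W n
      · refine (h.oneI n hn' hw).unique ((congrArg (IsLeast · (f' n)) (Set.ext fun x =>
          exists_congr fun a => ?_)).mp (h'.oneI n hn' (e1.1 hw)))
        have := ih' a
        clear ih ih'
        grind
      · refine (h.oneII n hn' hw).unique ((congrArg (IsLeast · (f' n)) (Set.ext fun x =>
          exists_congr fun a => ?_)).mp (h'.oneII n hn' (fun k => hw (e1.2 k))))
        have := ih' a
        clear ih ih'
        grind
  exact ⟨funext fun n => propext (key n).1, funext fun n => (key n).2.1,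
    funext fun n => (key n).2.2⟩

def c (L x : ℕ) : ℕ := L * (x / (2 * L))

theorem c_mono (L : ℕ) {x y : ℕ} (h : x ≤ y) : c L x ≤ c L y :=
  Nat.mul_le_mul_left _ (Nat.div_le_div_right h)

theorem c_add {L : ℕ} (hL : 1 ≤ L) (x : ℕ) : c L (x + 2 * L) = c L x + L := by
  rw [c, c, Nat.add_div_right _ (by omega)]; ring

theorem c_ge {L : ℕ} (hL : 1 ≤ L) {x q : ℕ} (h : 2 * (L * q) ≤ x) : L * q ≤ c L x :=
  Nat.mul_le_mul_left _ ((Nat.le_div_iff_mul_le (by omega)).2 (by nlinarith))

theorem c_le {L : ℕ} (hL : 1 ≤ L) {x q : ℕ} (h : x < 2 * (L * q) + 2 * L) : c L x ≤ L * q :=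
  Nat.mul_le_mul_left _ (Nat.lt_succ_iff.1 ((Nat.div_lt_iff_lt_mul (by omega)).2 (by nlinarith)))

theorem c_half (L x : ℕ) : 2 * c L x ≤ x := by
  have := Nat.mul_div_le x (2 * L)
  rw [c]; nlinarith

theorem c_gap {L : ℕ} (hL : 1 ≤ L) (x : ℕ) : x < 2 * c L x + 2 * L := by
  have := Nat.lt_mul_div_succ x (show 0 < 2 * L by omega)
  rw [c]; nlinarith

theorem c_step {L : ℕ} (x q : ℕ) : c L x ≤ L * q ∨ L * q + L ≤ c L x := by
  rcases le_or_gt (x / (2 * L)) q with h | h
  · left; exact Nat.mul_le_mul_left _ h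
  · right; exact (Nat.mul_succ L q) ▸ Nat.mul_le_mul_left _ h

def W0 (L M n : ℕ) : Prop := L ≤ n % (L + M)
def F (L M n : ℕ) : ℕ := max (M * (n / (L + M)) + n % (L + M) + 1 - L) (c L (n + L))
def G (L M n : ℕ) : ℕ := (Finset.Icc L (min M n)).sup fun a => F L M (n - a)

theorem dec {L M : ℕ} (r i n : ℕ) (hi : i < L + M) (hn : n = L * r + M * r + i) :
    (W0 L M n ↔ L ≤ i) ∧ F L M n = max (M * r + i + 1 - L) (c L (n + L)) := by
  have : n / (L + M) = r ∧ n % (L + M) = i :=
    (Nat.div_mod_unique (by omega)).2 ⟨by rw [hn]; ring, hi⟩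
  rw [W0, F, this.1, this.2]
  exact ⟨Iff.rfl, rfl⟩

theorem exi {L M : ℕ} (hL : 1 ≤ L) (n : ℕ) : ∃ r i, i < L + M ∧ n = L * r + M * r + i :=
  ⟨n / (L + M), n % (L + M), Nat.mod_lt _ (by omega), by
    have := Nat.div_add_mod n (L + M); linarith⟩

theorem G_ge {L M n a : ℕ} (h1 : L ≤ a) (h2 : a ≤ M) (h3 : a ≤ n) : F L M (n - a) ≤ G L M n :=
  Finset.le_sup (f := fun a => F L M (n - a)) (Finset.mem_Icc.2 ⟨h1, le_min h2 h3⟩)

/-- the window below `n` lies in one period -/
theorem G_eq {L M : ℕ} (hM : L ≤ M) (r i n : ℕ) (h1 : M ≤ i) (h2 : i < L + M + L)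
    (hn : n = L * r + M * r + i) : G L M n = max (M * r + i + 1 - 2 * L) (c L n) := by
  have e := (dec r (i - L) (n - L) (by omega) (by omega : _ = L * r + M * r + _)).2
  rw [show n - L + L = n by omega] at e
  apply le_antisymm
  · refine Finset.sup_le fun a ha => ?_
    simp only [Finset.mem_Icc, le_min_iff] at ha
    rw [(dec r (i - a) (n - a) (by omega) (by omega : _ = L * r + M * r + _)).2]
    have := c_mono L (show n - a + L ≤ n by omega)
    omega
  · have := G_ge le_rfl hM (show L ≤ n by omega)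
    omega

theorem G_low {L M : ℕ} (hL : 1 ≤ L) (hM : L ≤ M) (r j n : ℕ) (h1 : j < L)
    (hn : n = L * r + M * r + j) : G L M n = max (M * r + j + 1 - L) (c L n) := by
  cases r with
  | zero =>
    have : c L n ≤ L * 0 := c_le hL (by omega)
    rw [G, Finset.Icc_eq_empty (by omega), Finset.sup_empty, bot_eq_zero]
    omega
  | succ r =>
    rw [Nat.mul_succ, Nat.mul_succ] at hn
    rw [G_eq hM r (L + M + j) n (by omega) (by omega) (by omega), Nat.mul_succ]
    omega

theorem rec0 {L M : ℕ} (hL : 1 ≤ L) (hM : L ≤ M) : Rec L M (W0 L M) (F L M) (G L M) := by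
  have nw : ∀ r i n a, i < L + M → L ≤ i → n = L * r + M * r + i → L ≤ a → a ≤ M → a ≤ n →
      ¬ W0 L M (n - a) → a ≤ i ∧ i - a < L := by
    intro r i n a hi hLi hn h1 h2 h3 hw
    by_cases hai : a ≤ i
    · have := (dec r (i - a) (n - a) (by omega) (by omega : _ = L * r + M * r + _)).1
      rw [this] at hw
      omega
    · cases r with
      | zero => omega
      | succ r =>
        rw [Nat.mul_succ, Nat.mul_succ] at hn
        have := (dec r (L + M + i - a) (n - a) (by omega) (by omega : _ = L * r + M * r + _)).1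
        rw [this] at hw
        omega
  have hLM : ∀ r, L * r ≤ M * r := fun r => Nat.mul_le_mul_right _ hM
  constructor
  · intro n
    obtain ⟨r, i, hi, hn⟩ := exi (M := M) hL n
    rw [(dec r i n hi hn).1]
    constructor
    · intro h
      refine ⟨min M i, by omega, by omega, by omega, ?_⟩
      rw [(dec r (i - min M i) _ (by omega) (by omega : _ = L * r + M * r + _)).1]
      omega
    · rintro ⟨a, h1, h2, h3, hw⟩
      by_contra h
      cases r with
      | zero => omega
      | succ r =>
        rw [Nat.mul_succ, Nat.mul_succ] at hn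
        have := (dec r (L + M + i - a) (n - a) (by omega) (by omega : _ = L * r + M * r + _)).1
        rw [this] at hw
        omega
  · intro n hn
    have e := (dec (L := L) (M := M) 0 n n (by omega) (by omega)).2
    have e' := G_low hL hM 0 n n hn (by omega)
    have : c L (n + L) ≤ L * 0 := c_le hL (by omega)
    have : c L n ≤ L * 0 := c_le hL (by omega)
    omega
  · intro n hn
    constructor
    · obtain ⟨a, ha, h⟩ := Finset.exists_mem_eq_sup (Finset.Icc L (min M n))
        ⟨L, Finset.mem_Icc.2 ⟨le_rfl, le_min hM hn⟩⟩ fun a => F L M (n - a)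
      simp only [Finset.mem_Icc, le_min_iff] at ha
      exact ⟨a, ha.1, ha.2.1, ha.2.2, h⟩
    · rintro x ⟨a, h1, h2, h3, rfl⟩
      exact G_ge h1 h2 h3
  · intro n hn hw
    obtain ⟨r, i, hi, e⟩ := exi (M := M) hL n
    rw [(dec r i n hi e).1] at hw
    have e1 := (dec r i n hi e).2
    have e2 := c_add hL (n - L)
    rw [show n - L + 2 * L = n + L by omega] at e2
    have := hLM r
    have low : ∀ a, L ≤ a → a ≤ i → i - a < L → F L M n ≤ G L M (n - a) + a := by
      intro a h1 h2 h3
      rw [G_low hL hM r (i - a) (n - a) h3 (by omega)]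
      have b1 : L * r ≤ c L (n - a) := c_ge hL (by omega)
      have b2 := c_half L (n - L)
      have b3 := c_step (L := L) (n - L) r
      omega
    refine ⟨?_, ?_⟩
    · by_cases h2 : i < 2 * L
      · refine ⟨L, le_rfl, hM, hn, ?_, le_antisymm (low _ le_rfl hw (by omega)) ?_⟩
        · rw [(dec r (i - L) _ (by omega) (by omega : _ = L * r + M * r + _)).1]; omega
        · rw [G_low hL hM r (i - L) (n - L) (by omega) (by omega)]
          omega
      · refine ⟨i + 1 - L, by omega, by omega, by omega, ?_,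
          le_antisymm (low _ (by omega) (by omega) (by omega)) ?_⟩
        · rw [(dec r (L - 1) _ (by omega) (by omega : _ = L * r + M * r + _)).1]; omega
        · rw [G_low hL hM r (L - 1) _ (by omega) (by omega)]
          have b2 := c_half L (n - (i + 1 - L))
          have b3 := c_step (L := L) (n - (i + 1 - L)) r
          omega
    · rintro x ⟨a, h1, h2, h3, h4, rfl⟩
      obtain ⟨h5, h6⟩ := nw r i n a hi hw e h1 h2 h3 h4
      exact low a h1 h5 h6
  · intro n hn hw
    obtain ⟨r, i, hi, e⟩ := exi (M := M) hL n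
    rw [(dec r i n hi e).1] at hw
    have e1 := (dec r i n hi e).2
    have e2 := c_add hL (n - L)
    rw [show n - L + 2 * L = n + L by omega] at e2
    have e3 := G_low hL hM r i n (by omega) e
    cases r with
    | zero => omega
    | succ r =>
      have := hLM r
      rw [Nat.mul_succ] at e1 e3
      rw [Nat.mul_succ, Nat.mul_succ] at e
      refine ⟨⟨L, le_rfl, hM, hn, ?_, ?_⟩, ?_⟩
      · rw [(dec r (M + i) _ (by omega) (by omega : _ = L * r + M * r + _)).2,
          show n - L + L = n by omega]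
        omega
      · rw [G_eq hM r (M + i) _ (by omega) (by omega) (by omega)]
        omega
      · rintro x ⟨a, h1, h2, h3, h4, rfl⟩
        rw [(dec r (L + M + i - a) _ (by omega) (by omega : _ = L * r + M * r + _)).2] at h4
        have g1 := G_ge (n := n - a) le_rfl hM (by omega)
        rw [(dec r (M + i - a) _ (by omega) (by omega : _ = L * r + M * r + _)).2,
          show n - a - L + L = n - a by omega] at g1
        by_cases ha : a = L
        · subst ha; omega
        have b1 := c_mono L (show n - a + L ≤ n by omega)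
        have b2 := c_add hL (n - a)
        have b3 := c_mono L (show n - a + L ≤ n - a + 2 * L by omega)
        have b4 : L * (r + 1) ≤ c L n := c_ge hL (by rw [Nat.mul_succ]; omega)
        rw [Nat.mul_succ] at b4
        have b5 := c_half L n
        have b6 : n + L < 2 * c L n + 2 * L → c L (n + L) ≤ c L n := fun h => c_le hL h
        omega

theorem result (L M : ℕ) (hL : 1 ≤ L) (hM : L ≤ M) : ∃ W f g, Rec L M W f g ∧
    (∀ W' f' g', Rec L M W' f' g' → W' = W ∧ f' = f ∧ g' = g) ∧
    ∃ Θ, ∀ n, Θ ≤ n → f (n + L + M) = f n + M ∧ g (n + L + M) = g n + M := by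
  have R := rec0 hL hM
  refine ⟨_, _, _, R, fun _ _ _ h => uniq hL h R, ?_⟩
  have h1 : ∀ n, (L + M) * (4 * L) ≤ n → F L M (n + L + M) = F L M n + M := by
    intro n hn
    obtain ⟨r, i, hi, e⟩ := exi (M := M) hL n
    rw [(dec r i n hi e).2, (dec (r + 1) i _ hi (by rw [e]; ring)).2, Nat.mul_succ]
    have hr : 4 * L ≤ r := by
      by_contra k
      have : (L + M) * (r + 1) ≤ (L + M) * (4 * L) := Nat.mul_le_mul_left _ (by omega)
      nlinarith
    have : r ≤ M * r := Nat.le_mul_of_pos_left _ (by omega)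
    rcases hM.eq_or_lt with rfl | hlt
    · rw [show n + L + L + L = n + L + 2 * L by ring, c_add hL]
      omega
    · have b1 := c_half L (n + L)
      have b2 := c_half L (n + L + M + L)
      have : (L + 1) * r ≤ M * r := Nat.mul_le_mul_right _ hlt
      rw [Nat.succ_mul] at this
      omega
  refine ⟨(L + M) * (4 * L) + M, fun n hn => ⟨h1 n (by omega), ?_⟩⟩
  obtain ⟨⟨a, a1, a2, a3, a4⟩, hb⟩ := R.two n (by omega)
  obtain ⟨⟨b, b1, b2, b3, b4⟩, ha⟩ := R.two (n + L + M) (by omega)
  have k1 := ha ⟨a, a1, a2, by omega, rfl⟩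
  have k2 := hb ⟨b, b1, b2, by omega, rfl⟩
  rw [show n + L + M - a = n - a + L + M by omega, h1 _ (by omega)] at k1
  rw [show n + L + M - b = n - b + L + M by omega, h1 _ (by omega)] at b4
  omega

end Pool.Agent.Results.MP_88cfb8_co.Cash
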